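import Pool.Agent.Q276.BA.Stm

/-!
# Project BA (helper276): the jobs C1, C2, C3 (helper277)
-/

set_option autoImplicit false

open MeasureTheory Set Filter Topology
open scoped BigOperators ENNReal SchwartzMap FourierTransform

namespace Pool.Agent.Q277.BA

open Pool.Agent.Y282.RB (Tn)
open Pool.Agent.Q276.BA

/-- the character -/
noncomputable def ee (z ξ : ℂ) : ℂ :=
  Complex.exp (2 * (Real.pi : ℂ) * Complex.I * (((z.re * ξ.re + z.im * ξ.im : ℝ)) : ℂ))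

/-- the symbol -/
noncomputable def mm (n : ℕ) (ξ : ℂ) : ℂ := (starRingEnd ℂ ξ / ξ) ^ n

theorem tn_eq (n : ℕ) (f : 𝓢(ℂ, ℂ)) (z : ℂ) :
    Tn n f z = ∫ ξ : ℂ, ee z ξ * (mm n ξ * (𝓕 f : 𝓢(ℂ, ℂ)) ξ) := by
  unfold Tn ee mm
  refine integral_congr_ae (Eventually.of_forall fun ξ => ?_)
  simp only
  rw [Pool.Agent.Y282.RB.A2.Ft_eq]

theorem ee_norm (z ξ : ℂ) : ‖ee z ξ‖ = 1 := by
  unfold ee
  rw [show 2 * (Real.pi : ℂ) * Complex.I * (((z.re * ξ.re + z.im * ξ.im : ℝ)) : ℂ) =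
    ((2 * Real.pi * (z.re * ξ.re + z.im * ξ.im) : ℝ) : ℂ) * Complex.I by push_cast; ring]
  exact Complex.norm_exp_ofReal_mul_I _

theorem mm_norm (n : ℕ) (ξ : ℂ) : ‖mm n ξ‖ ≤ 1 := by
  unfold mm
  rw [norm_pow, norm_div, Complex.norm_conj]
  exact pow_le_one₀ (by positivity) (div_self_le_one _)

theorem mm_meas (n : ℕ) : Measurable (mm n) := by
  unfold mm
  exact ((Complex.continuous_conj.measurable).div measurable_id).pow_const n

theorem mm_neg (n : ℕ) (ξ : ℂ) : mm n (-ξ) = mm n ξ := by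
  unfold mm
  rw [map_neg, neg_div_neg_eq]

theorem ee_cont : Continuous fun x : ℂ × ℂ => ee x.1 x.2 := by
  unfold ee
  fun_prop

theorem ee_comm (z ξ : ℂ) : ee z ξ = ee ξ z := by
  unfold ee
  rw [mul_comm z.re, mul_comm z.im]

theorem ee_neg (z ξ : ℂ) : ee z (-ξ) = ee (-z) ξ := by
  unfold ee
  simp

/-- the transform at the opposite point -/
theorem int_ee (h : 𝓢(ℂ, ℂ)) (ξ : ℂ) : ∫ z : ℂ, ee z ξ * h z = (𝓕 h : 𝓢(ℂ, ℂ)) (-ξ) := by
  rw [← Pool.Agent.Y282.RB.A2.Ft_eq]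
  refine integral_congr_ae (Eventually.of_forall fun z => ?_)
  simp only
  unfold ee
  congr 2
  simp only [Complex.neg_re, Complex.neg_im]
  push_cast
  ring

theorem mF_int (n : ℕ) (f : 𝓢(ℂ, ℂ)) : Integrable fun ξ : ℂ => mm n ξ * (𝓕 f : 𝓢(ℂ, ℂ)) ξ :=
  ((𝓕 f : 𝓢(ℂ, ℂ)).integrable).bdd_mul (mm_meas n).aestronglyMeasurable
    (Eventually.of_forall fun ξ => mm_norm n ξ)

/-- the pairing on the Fourier side -/
theorem pair (n : ℕ) (f h : 𝓢(ℂ, ℂ)) : ∫ z : ℂ, Tn n f z * h z =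
    ∫ ξ : ℂ, mm n ξ * (𝓕 f : 𝓢(ℂ, ℂ)) ξ * (𝓕 h : 𝓢(ℂ, ℂ)) (-ξ) := by
  have h1 : Integrable (Function.uncurry fun z ξ : ℂ => ee z ξ * (mm n ξ * (𝓕 f : 𝓢(ℂ, ℂ)) ξ) * h z)
      (volume.prod volume) := by
    have h2 : Integrable (fun x : ℂ × ℂ => h x.1 * (mm n x.2 * (𝓕 f : 𝓢(ℂ, ℂ)) x.2))
        (volume.prod volume) := Integrable.mul_prod h.integrable (mF_int n f)
    have h3 : Integrable (fun x : ℂ × ℂ => ee x.1 x.2 * (h x.1 * (mm n x.2 * (𝓕 f : 𝓢(ℂ, ℂ)) x.2)))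
        (volume.prod volume) :=
      h2.bdd_mul ee_cont.aestronglyMeasurable (Eventually.of_forall fun x => (ee_norm x.1 x.2).le)
    refine h3.congr (Eventually.of_forall fun x => ?_)
    simp only [Function.uncurry]
    ring
  calc ∫ z : ℂ, Tn n f z * h z
      = ∫ z : ℂ, ∫ ξ : ℂ, ee z ξ * (mm n ξ * (𝓕 f : 𝓢(ℂ, ℂ)) ξ) * h z := by
        refine integral_congr_ae (Eventually.of_forall fun z => ?_)
        simp only
        rw [tn_eq, integral_mul_const]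
    _ = ∫ ξ : ℂ, ∫ z : ℂ, ee z ξ * (mm n ξ * (𝓕 f : 𝓢(ℂ, ℂ)) ξ) * h z := integral_integral_swap h1
    _ = ∫ ξ : ℂ, mm n ξ * (𝓕 f : 𝓢(ℂ, ℂ)) ξ * (𝓕 h : 𝓢(ℂ, ℂ)) (-ξ) := by
        refine integral_congr_ae (Eventually.of_forall fun ξ => ?_)
        simp only
        rw [← int_ee, ← integral_const_mul]
        refine integral_congr_ae (Eventually.of_forall fun z => ?_)
        simp only
        ring

/-- JOB C1 -/
theorem c1 : S_C1 := by
  intro n f h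
  rw [pair]
  have h1 : ∫ z : ℂ, f z * Tn n h z = ∫ z : ℂ, Tn n h z * f z :=
    integral_congr_ae (Eventually.of_forall fun z => mul_comm _ _)
  rw [h1, pair, ← integral_neg_eq_self]
  refine integral_congr_ae (Eventually.of_forall fun ξ => ?_)
  simp only
  rw [mm_neg, neg_neg]
  ring

/-! ### rotations -/

theorem rot_int {a : ℂ} (ha : ‖a‖ = 1) (F : ℂ → ℂ) : ∫ x : ℂ, F (a * x) = ∫ x : ℂ, F x := by
  have h1 := (rotation ⟨a, mem_sphere_zero_iff_norm.2 ha⟩).measurePreserving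
  have h2 := h1.integral_comp (rotation ⟨a, mem_sphere_zero_iff_norm.2 ha⟩).toHomeomorph.measurableEmbedding F
  exact h2

theorem conj_int (F : ℂ → ℂ) : ∫ x : ℂ, F (starRingEnd ℂ x) = ∫ x : ℂ, F x := by
  have h1 := Complex.conjLIE.measurePreserving
  have h2 := h1.integral_comp Complex.conjLIE.toHomeomorph.measurableEmbedding F
  exact h2

theorem ee_rot {a : ℂ} (ha : ‖a‖ = 1) (z ξ : ℂ) : ee (a * z) (a * ξ) = ee z ξ := by
  unfold ee
  congr 3
  have h1 : a.re * a.re + a.im * a.im = 1 := by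
    rw [← Complex.normSq_apply, Complex.normSq_eq_norm_sq, ha]
    norm_num
  simp only [Complex.mul_re, Complex.mul_im]
  linear_combination (z.re * ξ.re + z.im * ξ.im) * h1

theorem conj_of_norm {a : ℂ} (ha : ‖a‖ = 1) : starRingEnd ℂ a = a⁻¹ := by
  have h0 : a ≠ 0 := by
    rintro rfl
    simp at ha
  have h1 : a * starRingEnd ℂ a = 1 := by
    rw [Complex.mul_conj, Complex.normSq_eq_norm_sq, ha]
    norm_num
  exact eq_inv_of_mul_eq_one_right h1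

theorem four_cls {k : ℤ} {f : 𝓢(ℂ, ℂ)} (hf : Cls k f) : Cls k (𝓕 f : 𝓢(ℂ, ℂ)) := by
  intro a z ha
  have h1 := int_ee f (-(a * z))
  have h2 := int_ee f (-z)
  rw [neg_neg] at h1 h2
  rw [← h1, ← h2, ← rot_int ha, ← integral_const_mul]
  refine integral_congr_ae (Eventually.of_forall fun x => ?_)
  simp only
  rw [show -(a * z) = a * (-z) by ring, ee_rot ha, hf a x ha]
  ring

/-- JOB C2 -/
theorem c2 : S_C2 := by
  intro n k f hf a z ha
  have h0 : a ≠ 0 := by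
    rintro rfl
    simp at ha
  rw [tn_eq, tn_eq, ← rot_int ha, ← integral_const_mul]
  refine integral_congr_ae (Eventually.of_forall fun ξ => ?_)
  simp only
  have h1 : mm n (a * ξ) = a ^ (-(2 * n : ℤ)) * mm n ξ := by
    unfold mm
    rw [map_mul, conj_of_norm ha, mul_div_mul_comm, mul_pow]
    congr 1
    rw [zpow_neg, div_eq_mul_inv, ← mul_inv, inv_pow]
    congr 1
    rw [← pow_two, ← pow_mul]
    exact_mod_cast rfl
  rw [ee_rot ha, four_cls hf a ξ ha, h1, sub_eq_add_neg, zpow_add₀ h0]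
  ring

/-- JOB C3 -/
theorem c3 : S_C3 := by
  intro n k hk f g hf hg z
  have h1 : ∀ ξ : ℂ, (𝓕 g : 𝓢(ℂ, ℂ)) ξ = (𝓕 f : 𝓢(ℂ, ℂ)) (starRingEnd ℂ ξ) := by
    intro ξ
    have h1 := int_ee g (-ξ)
    have h2 := int_ee f (-(starRingEnd ℂ ξ))
    rw [neg_neg] at h1 h2
    rw [← h1, ← h2, ← conj_int]
    refine integral_congr_ae (Eventually.of_forall fun x => ?_)
    simp only
    rw [hg, Complex.conj_conj]
    unfold ee
    simp
  rw [tn_eq, tn_eq]
  have h0 : ∀ᵐ ξ : ℂ, ξ ≠ 0 := by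
    rw [ae_iff]
    simp
  refine integral_congr_ae ?_
  filter_upwards [h0] with ξ hξ
  have h2 : ‖starRingEnd ℂ ξ / ξ‖ = 1 := by
    rw [norm_div, Complex.norm_conj]
    exact div_self (norm_ne_zero_iff.2 hξ)
  have h3 := four_cls hf (starRingEnd ℂ ξ / ξ) ξ h2
  rw [div_mul_cancel₀ _ hξ] at h3
  rw [h1, h3]
  unfold mm
  rw [zpow_natCast, ← mul_assoc ((starRingEnd ℂ ξ / ξ) ^ (n - k)), ← pow_add, Nat.sub_add_cancel hk]

end Pool.Agent.Q277.BA
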